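import Pool.Agent.Y725.CL.Stm

/-!
The choice of the parameters (job CL-NUM).
-/

set_option autoImplicit false

open Finset Filter

namespace Pool.Agent.Y681.CL

theorem t_NUM : Pool.Agent.Y725.CL.P_NUM := by
  intro ε0 hε0
  obtain ⟨ε, hε, hε1, hεε⟩ : ∃ ε : ℝ, 0 < ε ∧ ε ≤ 1 ∧ ε ≤ ε0 :=
    ⟨min ε0 1, lt_min hε0 one_pos, min_le_right _ _, min_le_left _ _⟩
  obtain ⟨κ, hκ⟩ : ∃ κ : ℝ, κ = ε ^ 2 / 16 := ⟨_, rfl⟩
  have hκ0 : 0 < κ := by rw [hκ]; positivity
  have hκε : κ ≤ ε / 16 := by rw [hκ]; nlinarith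
  have hl2 : 0 < Real.log 2 := Real.log_pos one_lt_two
  have hl2' : Real.log 2 ≤ 1 := by
    have := Real.log_two_lt_d9
    linarith
  obtain ⟨c, hc⟩ : ∃ c : ℝ, c = κ * Real.log 2 := ⟨_, rfl⟩
  have hc0 : 0 < c := by rw [hc]; positivity
  obtain ⟨x, hx0, hx1, hxc⟩ : ∃ x : ℝ, 0 < x ∧ x ≤ 1 ∧ x ≤ c / 8 :=
    ⟨min 1 (c / 8), lt_min one_pos (by positivity), min_le_left _ _, min_le_right _ _⟩
  obtain ⟨L, hL⟩ : ∃ L : ℝ, L = -Real.log x := ⟨_, rfl⟩
  have hL0 : 0 ≤ L := by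
    rw [hL]
    have := Real.log_nonpos hx0.le hx1
    linarith
  obtain ⟨δ, hδ0, hδ1, hδL⟩ : ∃ δ : ℝ, 0 < δ ∧ δ ≤ 1 / 8 ∧ δ * L ≤ c / 8 := by
    refine ⟨min (1 / 8) (c / (8 * (L + 1))), lt_min (by norm_num) (by positivity),
      min_le_left _ _, ?_⟩
    calc min (1 / 8) (c / (8 * (L + 1))) * L ≤ c / (8 * (L + 1)) * L :=
          mul_le_mul_of_nonneg_right (min_le_right _ _) hL0
      _ ≤ c / 8 := by
        rw [div_mul_eq_mul_div, div_le_div_iff₀ (by positivity) (by norm_num)]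
        nlinarith [mul_nonneg hc0.le hL0]
  refine ⟨δ, hδ0, ?_⟩
  have ev : ∀ M : ℝ, ∀ᶠ d : ℕ in atTop, M ≤ (d : ℝ) := fun M =>
    tendsto_natCast_atTop_atTop.eventually_ge_atTop M
  filter_upwards [ev 3, ev ((c / 8 + L + Real.log 2 + 1) / (3 / 4 * c)),
    ev ((2 * Real.log 2 + 1) / (ε ^ 2 / 16)), ev (4 / ε)] with d h3 e1 e2 e3
  rw [div_le_iff₀ (by positivity)] at e1 e2 e3
  have hd0 : (0 : ℝ) < d := by linarith
  obtain ⟨k, hk⟩ : ∃ k : ℕ, k = ⌈κ * d⌉₊ := ⟨_, rfl⟩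
  have hk1 : κ * d ≤ k := by rw [hk]; exact Nat.le_ceil _
  have hk2 : (k : ℝ) < κ * d + 1 := by rw [hk]; exact Nat.ceil_lt_add_one (by positivity)
  obtain ⟨q, hq⟩ : ∃ q : ℕ, q = ⌈δ * d⌉₊ := ⟨_, rfl⟩
  have hq1 : δ * d ≤ q := by rw [hq]; exact Nat.le_ceil _
  have hq2 : (q : ℝ) < δ * d + 1 := by rw [hq]; exact Nat.ceil_lt_add_one (by positivity)
  have hκd : κ * d ≤ ε / 16 * d := mul_le_mul_of_nonneg_right hκε hd0.le
  have hεd : ε * d ≤ 1 * d := mul_le_mul_of_nonneg_right hε1 hd0.le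
  have hεεd : ε * d ≤ ε0 * d := mul_le_mul_of_nonneg_right hεε hd0.le
  have hδd : δ * d ≤ 1 / 8 * d := mul_le_mul_of_nonneg_right hδ1 hd0.le
  have hkd : k + q < d := by
    have : (k : ℝ) + q < d := by linarith
    exact_mod_cast this
  have hkpos : 0 < k := by
    have : (0 : ℝ) < k := lt_of_lt_of_le (by positivity) hk1
    exact_mod_cast this
  obtain ⟨p, hp⟩ : ∃ p : ℕ, p = d - k := ⟨_, rfl⟩
  have hkp : k + p = d := by omega
  have hkp' : (k : ℝ) + p = d := by exact_mod_cast hkp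
  have hp0 : (0 : ℝ) < p := by
    have : 0 < p := by omega
    exact_mod_cast this
  have hk0 : (0 : ℝ) ≤ k := Nat.cast_nonneg k
  have hpd : (p : ℝ) ≤ d := by linarith
  have hh : ∀ y : ℝ, y < -Real.log 2 → Real.exp y < 1 / 2 := by
    intro y hy
    calc Real.exp y < Real.exp (-Real.log 2) := Real.exp_lt_exp.mpr hy
      _ = 1 / 2 := by rw [Real.exp_neg, Real.exp_log (by norm_num)]; norm_num
  refine ⟨k, p, q, x, ε * d / 4, hkp, hkpos, by omega, hx0, hx1, by positivity, ?_, ?_, hq1⟩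
  · have a1 : (1 + x) ^ (d + 1) = Real.exp (((d + 1 : ℕ) : ℝ) * Real.log (1 + x)) := by
      rw [Real.exp_nat_mul, Real.exp_log (by linarith)]
    have a2 : x ^ q = Real.exp (-((q : ℝ) * L)) := by
      rw [hL, mul_neg, neg_neg, Real.exp_nat_mul, Real.exp_log hx0]
    have a3 : (2 : ℝ) ^ k = Real.exp ((k : ℝ) * Real.log 2) := by
      rw [Real.exp_nat_mul, Real.exp_log (by norm_num)]
    have b3 : c * d ≤ k * Real.log 2 := by
      rw [hc]
      have := mul_le_mul_of_nonneg_right hk1 hl2.le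
      linarith
    have f1 : (1 + x) ^ (d + 1) / x ^ q / 2 ^ k < 1 / 2 := by
      rw [a1, a2, a3, ← Real.exp_sub, ← Real.exp_sub]
      apply hh
      have b0 : Real.log (1 + x) ≤ c / 8 := by
        have := Real.log_le_sub_one_of_pos (show 0 < 1 + x by linarith)
        linarith
      have b1 : ((d + 1 : ℕ) : ℝ) * Real.log (1 + x) ≤ ((d : ℝ) + 1) * (c / 8) := by
        push_cast
        exact mul_le_mul_of_nonneg_left b0 (by linarith)
      have b2 : (q : ℝ) * L ≤ c / 8 * d + L := by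
        have g1 := mul_le_mul_of_nonneg_right hq2.le hL0
        have g2 := mul_le_mul_of_nonneg_right hδL hd0.le
        linarith
      linarith
    have f2 : 2 ^ k * Real.exp (-(2 * (ε * d / 4) ^ 2 / p)) < 1 / 2 := by
      rw [a3, ← Real.exp_add]
      apply hh
      have g1 : ε ^ 2 * d / 8 ≤ 2 * (ε * d / 4) ^ 2 / p := by
        rw [le_div_iff₀ hp0]
        have := mul_le_mul_of_nonneg_left hpd (show 0 ≤ ε ^ 2 * d / 8 by positivity)
        linarith
      have g2 : (k : ℝ) * Real.log 2 ≤ ε ^ 2 / 16 * d + Real.log 2 := by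
        have g3 : (k : ℝ) * Real.log 2 ≤ (κ * d + 1) * Real.log 2 :=
          mul_le_mul_of_nonneg_right hk2.le hl2.le
        have g4 : κ * d * Real.log 2 ≤ κ * d * 1 :=
          mul_le_mul_of_nonneg_left hl2' (by positivity)
        rw [hκ] at g3 g4
        linarith
      linarith
    linarith
  · linarith

end Pool.Agent.Y681.CL
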